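import Pool.Agent.Helper27.AO.Glue
import Pool.Agent.Helper22.AI.Ae4
import Pool.Agent.Helper22.AI.Cont
import Pool.Agent.Helper81.AO.Fin
import Pool.Agent.Helper99.EY.Unif2

/-!
# AO (MP_fb29e9_nt): prevalence of the laws for all `2 ≤ k ≤ ∞`, final form

Blocks: the high frequencies by helper54, 7, 27, 92, 99, 64, 56, 68, 78, 85 and 60; the low frequencies (amplitudes with superlinear exponents) by helper22 and 99; the
truncated formula by helper99; the choice of the amplitudes by helper81; Fubini by helper92; prevalence and assembly by helper27 and 92. A second assembly is Helper92/AO/Fin.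
-/

open MeasureTheory Real Set Filter Topology unitInterval

set_option autoImplicit false

namespace Pool.Agent.Helper27.AO

open Pool.Agent.Helper93.AO (Om PP)
open Pool.Agent.Helper93.EX (nu1 nu1_rapid)
open Pool.Agent.Helper22.AE (rho)
open Pool.Agent.Helper22.AI (Amp WW Hx WW_bound WW_top WW_per WW_cont_unif as_law as_law4 Low High)

section

variable {k : ℕ∞} {V : Type} [TopologicalSpace V] {val : V → ℝ → ℝ}

private lemma ww_rho27 [Amp] : ∃ C : ℝ, ∀ (o : Om) (t : ℝ), |rho (WW o) t| ≤ C := by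
  obtain ⟨C, _, hC⟩ := WW_bound
  refine ⟨2 * C, fun o t => ?_⟩
  have h0 := hC 0 (by norm_num) o t
  have h2 := hC 2 (by norm_num) o t
  rw [iteratedDeriv_zero] at h0
  rw [iteratedDeriv_succ, iteratedDeriv_one] at h2
  unfold rho
  refine (abs_add_le _ _).trans ?_
  linarith

private lemma low27 [Amp] : Low 1 := fun _ hK _ hG hr => Pool.Agent.Helper99.EY.as_unif_l nu1_rapid one_ne_zero hK hG hr

/-- prevalence for all `2 ≤ k ≤ ∞` -/
theorem prev_final [MeasurableSpace V] [BorelSpace V] (h : IsPerI k val) (hk : 2 ≤ k) : FinS k val := by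
  letI : Amp := Pool.Agent.Helper81.AO.theAmp
  refine prev_glue (s := Pool.Agent.Helper81.AO.sD) Pool.Agent.Helper81.AO.sD_rap (Q := PP nu1) (W := WW) WW_top WW_per WW_cont_unif ww_rho27
    (T := Pool.Agent.Helper81.AO.theAmp.T) ?_ ?_ h hk
  · exact fun _ => ⟨Pool.Agent.Helper81.AO.eD, Pool.Agent.Helper81.AO.eD_pos, Pool.Agent.Helper81.AO.eD_le, fun H₀ h2 hp _ => Pool.Agent.Helper81.AO.high_ae h2 hp⟩
  · intro e he he1 H₀ h2 hp
    have e1 : ∀ o : Om, (fun t => H₀ t + WW o t) = Hx H₀ 1 o := by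
      intro o
      funext t
      unfold Hx
      ring
    filter_upwards [as_law h2 hp one_ne_zero low27 (Or.inl rfl), as_law h2 hp one_ne_zero low27 (Or.inr rfl),
      as_law4 h2 hp one_ne_zero low27 (Or.inl rfl), as_law4 h2 hp one_ne_zero low27 (Or.inr rfl)] with o a1 a2 a3 a4 hS hpos
    rw [e1] at hS hpos ⊢
    have hpos' : ∀ t, 0 < Hx H₀ 1 o t + deriv (deriv (Hx H₀ 1 o)) t := by
      intro t
      have h1 := hpos t
      have h3 : H₀ t + WW o t = Hx H₀ 1 o t := congrFun (e1 o) t
      rwa [h3] at h1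
    have hH : High (Hx H₀ 1 o) := ⟨e, he, he1, hS⟩
    rintro s (rfl | rfl)
    · exact ⟨a1 hpos' hH, a3 hpos' hH⟩
    · exact ⟨a2 hpos' hH, a4 hpos' hH⟩

end

end Pool.Agent.Helper27.AO
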