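import Mathlib

/-!
# AO (MP_fb29e9_nt): the smooth random series `∑ s_l (X_l cos lθ + Y_l sin lθ)` with rapidly decreasing `s_l`

All derivatives depend continuously on the sample, for uniform convergence (adapted from Helper92/AD/A13, where `s_l = exp (-l)`).
-/

open MeasureTheory Real Set Filter Topology unitInterval

set_option autoImplicit false

namespace Pool.Agent.Helper27.AO

open scoped ContDiff

/-- the random series -/
noncomputable def As (s : ℕ → ℝ) (x : ℕ → I × I) (θ : ℝ) : ℝ := ∑' l : ℕ, s l * (((x l).1 : ℝ) * cos (l * θ) + ((x l).2 : ℝ) * sin (l * θ))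

/-- rapidly decreasing coefficients -/
def Rap (s : ℕ → ℝ) : Prop := ∀ j : ℕ, Summable fun l : ℕ => (l : ℝ) ^ j * |s l|

theorem rap_exp : Rap fun l => exp (-(l : ℝ)) := by
  intro j
  have h := Real.summable_pow_mul_exp_neg_nat_mul j one_pos
  refine h.congr fun l => ?_
  rw [neg_one_mul, abs_of_pos (exp_pos _)]

private lemma cos_iter27 (l j : ℕ) (θ : ℝ) : |iteratedDeriv j (fun θ => cos ((l : ℝ) * θ)) θ| ≤ (l : ℝ) ^ j := by
  rw [iteratedDeriv_comp_const_mul (Real.contDiff_cos.of_le le_top)]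
  simp only
  rw [abs_mul, abs_pow, Nat.abs_cast]
  calc (l : ℝ) ^ j * |iteratedDeriv j cos (l * θ)| ≤ (l : ℝ) ^ j * 1 :=
        mul_le_mul_of_nonneg_left (Real.abs_iteratedDeriv_cos_le_one j _) (by positivity)
    _ = _ := mul_one _

private lemma sin_iter27 (l j : ℕ) (θ : ℝ) : |iteratedDeriv j (fun θ => sin ((l : ℝ) * θ)) θ| ≤ (l : ℝ) ^ j := by
  rw [iteratedDeriv_comp_const_mul (Real.contDiff_sin.of_le le_top)]
  simp only
  rw [abs_mul, abs_pow, Nat.abs_cast]
  calc (l : ℝ) ^ j * |iteratedDeriv j sin (l * θ)| ≤ (l : ℝ) ^ j * 1 :=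
        mul_le_mul_of_nonneg_left (Real.abs_iteratedDeriv_sin_le_one j _) (by positivity)
    _ = _ := mul_one _

private lemma cos_cd27 (l : ℕ) (n : WithTop ℕ∞) : ContDiff ℝ n fun θ => cos ((l : ℝ) * θ) :=
  (Real.contDiff_cos.of_le le_top).comp (contDiff_const.mul contDiff_id)

private lemma sin_cd27 (l : ℕ) (n : WithTop ℕ∞) : ContDiff ℝ n fun θ => sin ((l : ℝ) * θ) :=
  (Real.contDiff_sin.of_le le_top).comp (contDiff_const.mul contDiff_id)

/-- one term -/
private noncomputable def tx27 (s : ℕ → ℝ) (x : ℕ → I × I) (l : ℕ) (θ : ℝ) : ℝ :=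
  s l * (((x l).1 : ℝ) * cos (l * θ) + ((x l).2 : ℝ) * sin (l * θ))

private lemma tx_cd27 (s : ℕ → ℝ) (x : ℕ → I × I) (l : ℕ) (n : WithTop ℕ∞) : ContDiff ℝ n (tx27 s x l) :=
  contDiff_const.mul ((contDiff_const.mul (cos_cd27 l n)).add (contDiff_const.mul (sin_cd27 l n)))

private lemma tx_iter27 (s : ℕ → ℝ) (x : ℕ → I × I) (l j : ℕ) (θ : ℝ) : iteratedDeriv j (tx27 s x l) θ =
    s l * (((x l).1 : ℝ) * iteratedDeriv j (fun θ => cos ((l : ℝ) * θ)) θ +
      ((x l).2 : ℝ) * iteratedDeriv j (fun θ => sin ((l : ℝ) * θ)) θ) := by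
  have e : tx27 s x l = fun θ => s l * (((x l).1 : ℝ) * cos ((l : ℝ) * θ) + ((x l).2 : ℝ) * sin ((l : ℝ) * θ)) := rfl
  rw [e, iteratedDeriv_const_mul_field, iteratedDeriv_fun_add (contDiff_const.mul (cos_cd27 l j)).contDiffAt
    (contDiff_const.mul (sin_cd27 l j)).contDiffAt, iteratedDeriv_const_mul_field, iteratedDeriv_const_mul_field]

private lemma tx_bound27 (s : ℕ → ℝ) (x : ℕ → I × I) (l j : ℕ) (θ : ℝ) : |iteratedDeriv j (tx27 s x l) θ| ≤ 2 * ((l : ℝ) ^ j * |s l|) := by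
  rw [tx_iter27]
  have h1 : |((x l).1 : ℝ)| ≤ 1 := abs_le.2 ⟨by linarith [(x l).1.2.1], (x l).1.2.2⟩
  have h2 : |((x l).2 : ℝ)| ≤ 1 := abs_le.2 ⟨by linarith [(x l).2.2.1], (x l).2.2.2⟩
  have h3 := cos_iter27 l j θ
  have h4 := sin_iter27 l j θ
  have hp : 0 ≤ (l : ℝ) ^ j := by positivity
  rw [abs_mul]
  have h5 : |((x l).1 : ℝ) * iteratedDeriv j (fun θ => cos ((l : ℝ) * θ)) θ +
      ((x l).2 : ℝ) * iteratedDeriv j (fun θ => sin ((l : ℝ) * θ)) θ| ≤ (l : ℝ) ^ j + (l : ℝ) ^ j := by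
    refine (abs_add_le _ _).trans (add_le_add ?_ ?_)
    · rw [abs_mul]
      calc _ ≤ 1 * (l : ℝ) ^ j := mul_le_mul h1 h3 (abs_nonneg _) zero_le_one
        _ = _ := one_mul _
    · rw [abs_mul]
      calc _ ≤ 1 * (l : ℝ) ^ j := mul_le_mul h2 h4 (abs_nonneg _) zero_le_one
        _ = _ := one_mul _
  calc _ ≤ |s l| * ((l : ℝ) ^ j + (l : ℝ) ^ j) := mul_le_mul_of_nonneg_left h5 (abs_nonneg _)
    _ = _ := by ring

private lemma tx_fbound27 (s : ℕ → ℝ) (x : ℕ → I × I) (j l : ℕ) (θ : ℝ) :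
    ‖iteratedFDeriv ℝ j (tx27 s x l) θ‖ ≤ 2 * ((l : ℝ) ^ j * |s l|) := by
  rw [norm_iteratedFDeriv_eq_norm_iteratedDeriv, Real.norm_eq_abs]
  exact tx_bound27 s x l j θ

private lemma As_eq27 (s : ℕ → ℝ) (x : ℕ → I × I) : As s x = fun θ => ∑' l : ℕ, tx27 s x l θ := rfl

theorem As_cd {s : ℕ → ℝ} (hs : Rap s) (x : ℕ → I × I) (k : ℕ∞) : ContDiff ℝ k (As s x) := by
  rw [As_eq27]
  exact contDiff_tsum (fun l => tx_cd27 s x l k) (fun j _ => (hs j).mul_left 2) (fun j l θ _ => tx_fbound27 s x j l θ)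

theorem As_smooth {s : ℕ → ℝ} (hs : Rap s) (x : ℕ → I × I) : ContDiff ℝ ∞ (As s x) := As_cd hs x ⊤

theorem As_per (s : ℕ → ℝ) (x : ℕ → I × I) : Function.Periodic (As s x) (2 * π) := by
  intro θ
  unfold As
  refine tsum_congr fun l => ?_
  have e : (l : ℝ) * (θ + 2 * π) = l * θ + l * (2 * π) := by ring
  rw [e, Real.cos_add_nat_mul_two_pi, Real.sin_add_nat_mul_two_pi]

private lemma As_iter27 {s : ℕ → ℝ} (hs : Rap s) (x : ℕ → I × I) (j : ℕ) (θ : ℝ) : iteratedDeriv j (As s x) θ = ∑' l, iteratedDeriv j (tx27 s x l) θ := by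
  rw [As_eq27]
  have h1 : iteratedFDeriv ℝ j (fun θ => ∑' l : ℕ, tx27 s x l θ) θ = ∑' l, iteratedFDeriv ℝ j (tx27 s x l) θ :=
    iteratedFDeriv_tsum_apply (N := ⊤) (fun l => tx_cd27 s x l _) (fun j _ => (hs j).mul_left 2)
      (fun j l θ _ => tx_fbound27 s x j l θ) le_top θ
  have hsm : Summable fun l => iteratedFDeriv ℝ j (tx27 s x l) θ :=
    Summable.of_norm_bounded ((hs j).mul_left 2) fun l => tx_fbound27 s x j l θ
  rw [iteratedDeriv_eq_iteratedFDeriv, h1]
  have h2 := (ContinuousMultilinearMap.apply ℝ (fun _ : Fin j => ℝ) ℝ (fun _ => (1 : ℝ))).map_tsum hsm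
  exact h2

theorem As_bound {s : ℕ → ℝ} (hs : Rap s) (x : ℕ → I × I) (j : ℕ) (θ : ℝ) : |iteratedDeriv j (As s x) θ| ≤ ∑' l : ℕ, 2 * ((l : ℝ) ^ j * |s l|) := by
  rw [As_iter27 hs]
  have h := tsum_of_norm_bounded ((hs j).mul_left 2).hasSum (f := fun l => iteratedDeriv j (tx27 s x l) θ) fun l => by
    rw [Real.norm_eq_abs]
    exact tx_bound27 s x l j θ
  rwa [Real.norm_eq_abs] at h

/-- the derivatives depend continuously on the sample, for uniform convergence -/
theorem As_cont {s : ℕ → ℝ} (hs : Rap s) (j : ℕ) : Continuous fun x : ℕ → I × I => UniformFun.ofFun (iteratedDeriv j (As s x)) := by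
  have c1 : ∀ l : ℕ, Continuous (iteratedDeriv j fun θ => cos ((l : ℝ) * θ)) := fun l =>
    (cos_cd27 l j).continuous_iteratedDeriv j le_rfl
  have c2 : ∀ l : ℕ, Continuous (iteratedDeriv j fun θ => sin ((l : ℝ) * θ)) := fun l =>
    (sin_cd27 l j).continuous_iteratedDeriv j le_rfl
  let E1 : ℕ → BoundedContinuousFunction ℝ ℝ := fun l =>
    BoundedContinuousFunction.ofNormedAddCommGroup _ (c1 l) ((l : ℝ) ^ j) fun t => cos_iter27 l j t
  let E2 : ℕ → BoundedContinuousFunction ℝ ℝ := fun l =>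
    BoundedContinuousFunction.ofNormedAddCommGroup _ (c2 l) ((l : ℝ) ^ j) fun t => sin_iter27 l j t
  let G : ℕ → (ℕ → I × I) → BoundedContinuousFunction ℝ ℝ := fun l x =>
    s l • (((x l).1 : ℝ) • E1 l + ((x l).2 : ℝ) • E2 l)
  have hG : ∀ l x t, G l x t = iteratedDeriv j (tx27 s x l) t := by
    intro l x t
    rw [tx_iter27]
    simp only [G, BoundedContinuousFunction.coe_smul, BoundedContinuousFunction.coe_add, Pi.add_apply, smul_eq_mul]
    rfl
  have hGc : ∀ l, Continuous (G l) := by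
    intro l
    have a1 : Continuous fun x : ℕ → I × I => ((x l).1 : ℝ) := continuous_subtype_val.comp (continuous_fst.comp (continuous_apply _))
    have a2 : Continuous fun x : ℕ → I × I => ((x l).2 : ℝ) := continuous_subtype_val.comp (continuous_snd.comp (continuous_apply _))
    exact ((a1.smul continuous_const).add (a2.smul continuous_const)).const_smul (s l)
  have hGn : ∀ l x, ‖G l x‖ ≤ 2 * ((l : ℝ) ^ j * |s l|) := by
    intro l x
    rw [BoundedContinuousFunction.norm_le (by positivity)]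
    intro t
    rw [hG, Real.norm_eq_abs]
    exact tx_bound27 s x l j t
  have hsum : Summable fun l : ℕ => 2 * ((l : ℝ) ^ j * |s l|) := (hs j).mul_left 2
  have hF : Continuous fun x => ∑' l, G l x := continuous_tsum hGc hsum hGn
  have hval : ∀ x t, (∑' l, G l x) t = iteratedDeriv j (As s x) t := by
    intro x t
    have hsm : Summable fun l => G l x := Summable.of_norm_bounded hsum fun l => hGn l x
    have h1 := (BoundedContinuousFunction.evalCLM ℝ t).map_tsum hsm
    rw [As_iter27 hs]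
    refine h1.trans (tsum_congr fun l => hG l x t)
  have h2 := BoundedContinuousFunction.isInducing_coeFn.continuous.comp hF
  refine h2.congr fun x => ?_
  show UniformFun.ofFun (⇑(∑' l, G l x)) = UniformFun.ofFun (iteratedDeriv j (As s x))
  congr 1
  funext t
  exact hval x t

/-- the sum of two random functions: the derivatives depend continuously on the pair of the samples -/
theorem sum_cont {Z X : Type} [TopologicalSpace Z] [TopologicalSpace X] {f : Z → ℝ → ℝ} {g : X → ℝ → ℝ} {j : ℕ} (hf : ∀ z, ContDiff ℝ j (f z))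
    (hg : ∀ x, ContDiff ℝ j (g x)) (hfc : Continuous fun z => UniformFun.ofFun (iteratedDeriv j (f z)))
    (hgc : Continuous fun x => UniformFun.ofFun (iteratedDeriv j (g x))) :
    Continuous fun p : Z × X => UniformFun.ofFun (iteratedDeriv j (fun t => f p.1 t + g p.2 t)) := by
  have h1 : Continuous fun p : Z × X => UniformFun.ofFun (iteratedDeriv j (f p.1)) + UniformFun.ofFun (iteratedDeriv j (g p.2)) :=
    (hfc.comp continuous_fst).add (hgc.comp continuous_snd)
  refine h1.congr fun p => ?_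
  rw [← UniformFun.ofFun_add]
  congr 1
  funext t
  exact (iteratedDeriv_fun_add (hf p.1).contDiffAt (hg p.2).contDiffAt).symm

end Pool.Agent.Helper27.AO
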