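import Pool.Agent.Helper27.AO.Prev
import Pool.Agent.Helper27.AO.Ser
import Pool.Agent.Helper92.AO.F
import Pool.Agent.Helper99.EY.Trunc2

/-!
# AO (MP_fb29e9_nt): the last step for `2 ≤ k ≤ ∞`: Fubini for the two samples

The random function is `W(ω) + A(x)`. For every sample `ω` the blocks above `T p` of the oval `v + W(ω) + A(x)` are small for almost every `x` (`hdiag`, uniform in the base);
so for almost every `x` this holds for almost every `ω` (`fub_hi`), and the laws hold for almost every `ω` (`hlaw`, base `v + A(x)`).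
-/

open MeasureTheory Real Set Filter Topology unitInterval

set_option autoImplicit false

namespace Pool.Agent.Helper27.AO

open scoped ContDiff
open Pool.Agent.Helper22.AE (rho IsSupp ft ee)
open Pool.Agent.Helper92.AO (HiG fub_hi near_of_cont)
open Pool.Agent.Helper99.EY (SBl SBh)
open Pool.Agent.Helper93.AO (Om)

/-- the high blocks are small at the scale `2^p` -/
def HGi (T : ℕ → ℕ) (e : ℝ) (p : ℕ) (H : ℝ → ℝ) : Prop :=
  HiG {n : ℕ | T p < n ∧ (n : ℝ) ≤ (1 / 2 + e) * p} (2 ^ p / 2) (4 * 2 ^ p) (fun n => sqrt (2 ^ p) / ((n : ℝ) + 1) ^ 2) H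

theorem sbh_of {T : ℕ → ℕ} {e : ℝ} {H : ℝ → ℝ} (h : ∃ p₀ : ℕ, ∀ p : ℕ, p₀ ≤ p → HGi T e p H) : SBh T e H := by
  obtain ⟨p₀, h⟩ := h
  intro v hv
  refine ⟨1, p₀, fun p hp n hn1 hn2 R hR c => ?_⟩
  have h1 := h p hp v hv n ⟨hn1, hn2⟩ R hR c
  rw [one_mul]
  exact h1.trans (by linarith)

private lemma rho_add27 {f g : ℝ → ℝ} (hf : ContDiff ℝ 2 f) (hg : ContDiff ℝ 2 g) (t : ℝ) : rho (fun t => f t + g t) t = rho f t + rho g t := by
  have e2 : ∀ f : ℝ → ℝ, iteratedDeriv 2 f = deriv (deriv f) := fun f => by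
    rw [iteratedDeriv_succ, iteratedDeriv_one]
  have h := iteratedDeriv_fun_add (n := 2) (x := t) (by exact_mod_cast hf.contDiffAt) (by exact_mod_cast hg.contDiffAt) (f := f) (g := g)
  unfold rho
  rw [e2, e2, e2] at h
  rw [h]
  ring

private lemma rho_bdd27 {v : ℝ → ℝ} (hv : ContDiff ℝ 2 v) (hp : Function.Periodic v (2 * π)) : ∃ V : ℝ, ∀ t, |rho v t| ≤ V := by
  have hc : Continuous (rho v) := Pool.Agent.Helper22.OV.o3_rho_cont hv
  have hper : Function.Periodic (rho v) (2 * π) := by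
    have hd : ∀ {f : ℝ → ℝ}, Function.Periodic f (2 * π) → Function.Periodic (deriv f) (2 * π) := by
      intro f h s
      have h3 : (fun x => f (x + 2 * π)) = f := funext h
      calc deriv f (s + 2 * π) = deriv (fun x => f (x + 2 * π)) s := (deriv_comp_add_const _ _ _).symm
        _ = _ := by rw [h3]
    intro s
    unfold rho
    rw [hp s, hd (hd hp) s]
  obtain ⟨x, _, hx⟩ := (isCompact_Icc (a := (0 : ℝ)) (b := 2 * π)).exists_isMaxOn ⟨0, by constructor <;> positivity⟩ hc.abs.continuousOn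
  refine ⟨|rho v x|, fun t => ?_⟩
  obtain ⟨s, hs, he⟩ := hper.exists_mem_Ico₀ (by positivity) t
  rw [he]
  exact hx ⟨hs.1, hs.2.le⟩

section

variable {k : ℕ∞} {V : Type} [TopologicalSpace V] {val : V → ℝ → ℝ}

/-- the product measure of the coefficients of the smooth series -/
noncomputable abbrev PI : Measure (ℕ → I × I) := Measure.infinitePi fun _ : ℕ => (volume : Measure (I × I))

theorem prev_glue {s : ℕ → ℝ} (hs : Rap s) {Q : Measure Om} [IsProbabilityMeasure Q] {W : Om → ℝ → ℝ} (hW : ∀ y, ContDiff ℝ ∞ (W y))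
    (hWp : ∀ y, Function.Periodic (W y) (2 * π)) (hWc : ∀ j : ℕ, Continuous fun y => UniformFun.ofFun (iteratedDeriv j (W y)))
    (hWb : ∃ C : ℝ, ∀ y t, |rho (W y) t| ≤ C) {T : ℕ → ℕ}
    (hdiag : ∀ B : ℝ, ∃ e : ℝ, 0 < e ∧ e ≤ 1 / 1000 ∧ ∀ H₀ : ℝ → ℝ, ContDiff ℝ 2 H₀ → Function.Periodic H₀ (2 * π) → (∀ t, |rho H₀ t| ≤ B) →
      ∀ᵐ x ∂PI, ∃ p₀ : ℕ, ∀ p : ℕ, p₀ ≤ p → HGi T e p (fun t => H₀ t + As s x t))
    (hlaw : ∀ e : ℝ, 0 < e → e ≤ 1 / 1000 → ∀ H₀ : ℝ → ℝ, ContDiff ℝ 2 H₀ → Function.Periodic H₀ (2 * π) →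
      ∀ᵐ y ∂Q, SBh T e (fun t => H₀ t + W y t) → (∀ t, 0 < (H₀ t + W y t) + deriv (deriv (fun t => H₀ t + W y t)) t) → LawP (fun t => H₀ t + W y t))
    [MeasurableSpace V] [BorelSpace V] (h : IsPerI k val) (hk : 2 ≤ k) : FinS k val := by
  have hc2 : ∀ y, ContDiff ℝ 2 (W y) := fun y => (hW y).of_le (WithTop.coe_le_coe.2 (le_top : (2 : ℕ∞) ≤ ⊤))
  have ha2 : ∀ x, ContDiff ℝ 2 (As s x) := fun x => As_cd hs x 2
  refine prev_fin_prod (X := ℕ → I × I) (Y := Om) PI Q (fun z t => W z.2 t + As s z.1 t) ?_ ?_ ?_ ?_ h hk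
  · exact fun z => (hW z.2).add (As_smooth hs z.1)
  · intro z t
    simp only [hWp z.2 t, As_per s z.1 t]
  · intro j
    have h1 : ∀ y, ContDiff ℝ j (W y) := fun y => (hW y).of_le (by exact_mod_cast le_top)
    have h2 := sum_cont (j := j) h1 (fun x => As_cd hs x j) (hWc j) (As_cont hs j)
    exact h2.comp (continuous_snd.prodMk continuous_fst)
  · intro v hv hvp
    obtain ⟨V1, hV1⟩ := rho_bdd27 hv hvp
    obtain ⟨C, hC⟩ := hWb
    obtain ⟨e, he, he1, hd⟩ := hdiag (V1 + C)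
    have hb : ∀ y : Om, ∀ᵐ x ∂PI, ∃ p₀ : ℕ, ∀ p : ℕ, p₀ ≤ p → HGi T e p (fun t => v t + (W y t + As s x t)) := by
      intro y
      have h1 := hd (fun t => v t + W y t) (hv.add (hc2 y)) (fun t => by simp only [hvp t, hWp y t]) (fun t => by
        rw [rho_add27 hv (hc2 y)]
        exact (abs_add_le _ _).trans (add_le_add (hV1 t) (hC y t)))
      filter_upwards [h1] with x hx
      simpa only [add_assoc] using hx
    have hj : ∀ j : ℕ, j ≤ 2 → Continuous fun z : Om × (ℕ → I × I) => UniformFun.ofFun (iteratedDeriv j (fun t => W z.1 t + As s z.2 t)) := fun j _ =>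
      sum_cont (j := j) (fun y => (hW y).of_le (by exact_mod_cast le_top)) (fun x => As_cd hs x j) (hWc j) (As_cont hs j)
    have hF : ∀ᵐ x ∂PI, ∀ᵐ y ∂Q, ∃ p₀ : ℕ, ∀ p : ℕ, p₀ ≤ p → HGi T e p (fun t => v t + (W y t + As s x t)) := by
      refine fub_hi (F := fun z : Om × (ℕ → I × I) => fun t => v t + (W z.1 t + As s z.2 t)) (fun z => hv.add ((hc2 z.1).add (ha2 z.2))) ?_
        (near_of_cont hv (F := fun z : Om × (ℕ → I × I) => fun t => W z.1 t + As s z.2 t) (fun z => (hc2 z.1).add (ha2 z.2)) (hj 0 (by norm_num)) (hj 2 le_rfl))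
        (fun p => {n : ℕ | T p < n ∧ (n : ℝ) ≤ (1 / 2 + e) * p}) (A := fun p => 2 ^ p / 2) (B := fun p => 4 * 2 ^ p) (fun p => by positivity)
        (fun p n => sqrt (2 ^ p) / ((n : ℝ) + 1) ^ 2) hb
      intro z t
      simp only [hvp t, hWp z.1 t, As_per s z.2 t]
    filter_upwards [hF] with x hx
    have hl := hlaw e he he1 (fun t => v t + As s x t) (hv.add (ha2 x)) (fun t => by simp only [hvp t, As_per s x t])
    filter_upwards [hx, hl] with y h1 h2
    have e1 : (fun t => v t + (W y t + As s x t)) = fun t => (v t + As s x t) + W y t := by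
      funext t
      ring
    have h3 := sbh_of h1
    rw [e1] at h3
    have h4 := h2 h3
    show (∀ t, 0 < (v t + (W y t + As s x t)) + deriv (deriv (fun t => v t + (W y t + As s x t))) t) → LawP (fun t => v t + (W y t + As s x t))
    rw [e1]
    intro h5
    refine h4 fun t => ?_
    have h6 := h5 t
    linarith

end

end Pool.Agent.Helper27.AO
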