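import Pool.Agent.Helper60.AO.Defs
import Pool.Agent.Helper22.AE.D3

/-!
# AO (MP_fb29e9_nt, high frequencies with a power saving), block H3a: geometry of one arc
-/

open MeasureTheory Real Set Filter Topology

set_option autoImplicit false

namespace Pool.Agent.Helper27.AO

open Pool.Agent.Helper22.AE Pool.Agent.Helper60.AD Pool.Agent.Helper60.AO

private lemma prod_exp27 (M s j : ℕ) (k : ℤ × ℤ) :
    zk k * (starRingEnd ℂ) (z0 M s j) = Complex.exp (((2 * π * xk k - th M s j : ℝ) : ℂ) * Complex.I) := by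
  unfold z0
  rw [zk_xk, ← Complex.exp_conj, map_mul, Complex.conj_ofReal, Complex.conj_I, ← Complex.exp_add]
  congr 1
  push_cast
  ring

private lemma phi27 {M s j : ℕ} (hM : 1 ≤ M) (x : ℝ) :
    2 * π * x - th M s j = 2 * π / (8 * (M : ℝ) ^ s) * (8 * (M : ℝ) ^ s * x - j) := by
  have hM0 : (0 : ℝ) < (M : ℝ) ^ s := by
    have : (0 : ℝ) < M := by exact_mod_cast hM
    positivity
  unfold th
  push_cast
  field_simp

private lemma cos27 {φ : ℝ} (h0 : 0 ≤ φ) (h1 : φ ≤ π / 4) : 1 / 2 ≤ cos φ := by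
  have h2 := Real.one_sub_sq_div_two_le_cos (x := φ)
  have h3 : φ ≤ 1 := h1.trans (by linarith [Real.pi_lt_four])
  nlinarith

theorem arc_geom {n M s j : ℕ} (hM : 1 ≤ M) {k : ℤ × ℤ} (hk : k ∈ arcSet (blk n) (8 * M ^ s) j) :
    0 ≤ tt M s j k ∧ tt M s j k ≤ 1 ∧ 1 / 2 ≤ (zk k * (starRingEnd ℂ) (z0 M s j)).re := by
  have hM1 : (1 : ℝ) ≤ M := by exact_mod_cast hM
  have hMs : (1 : ℝ) ≤ (M : ℝ) ^ s := one_le_pow₀ hM1
  have hN0 : (0 : ℝ) < 8 * (M : ℝ) ^ s := by positivity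
  unfold arcSet at hk
  rw [Finset.mem_filter] at hk
  have h2 := hk.2
  push_cast at h2
  have hx0 : 0 ≤ xk k := Int.fract_nonneg _
  have f1 := Nat.floor_le (mul_nonneg hN0.le hx0)
  have f2 := Nat.lt_floor_add_one (8 * (M : ℝ) ^ s * xk k)
  rw [h2] at f1 f2
  unfold tt
  rw [prod_exp27, phi27 hM, Complex.exp_ofReal_mul_I_im, Complex.exp_ofReal_mul_I_re]
  set u : ℝ := 8 * (M : ℝ) ^ s * xk k - j with hu
  have hu0 : 0 ≤ u := by linarith
  have hu1 : u ≤ 1 := by linarith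
  set φ : ℝ := 2 * π / (8 * (M : ℝ) ^ s) * u with hφ
  have hc : 0 < 2 * π / (8 * (M : ℝ) ^ s) := by positivity
  have hφ0 : 0 ≤ φ := mul_nonneg hc.le hu0
  have hφ1 : φ * (M : ℝ) ^ s ≤ π / 4 := by
    have e : φ * (M : ℝ) ^ s = π / 4 * u := by
      rw [hφ]
      field_simp
      ring
    rw [e]
    nlinarith [Real.pi_pos]
  have hφ2 : φ ≤ π / 4 := by nlinarith
  refine ⟨?_, ?_, cos27 hφ0 hφ2⟩
  · exact mul_nonneg (by linarith) (Real.sin_nonneg_of_nonneg_of_le_pi hφ0 (by linarith [Real.pi_pos]))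
  · have h3 : sin φ ≤ φ := Real.sin_le hφ0
    calc (M : ℝ) ^ s * sin φ ≤ (M : ℝ) ^ s * φ := mul_le_mul_of_nonneg_left h3 (by linarith)
      _ = φ * (M : ℝ) ^ s := mul_comm _ _
      _ ≤ π / 4 := hφ1
      _ ≤ 1 := by linarith [Real.pi_lt_four]

/-- the case `a i + 2 ≤ a i'` -/
private lemma sep27 {B : Finset (ℤ × ℤ)} {M s j a b : ℕ} (hM : 1 ≤ M) (hb : b < M) (hab : a + 2 ≤ b) {k k' : ℤ × ℤ}
    (hk : k ∈ arcSet B (8 * M ^ (s + 1)) (M * j + a)) (hk' : k' ∈ arcSet B (8 * M ^ (s + 1)) (M * j + b)) :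
    1 / (4 * (M : ℝ)) ≤ tt M s j k' - tt M s j k := by
  have hM1 : (1 : ℝ) ≤ M := by exact_mod_cast hM
  have hM0 : (0 : ℝ) < M := by linarith
  have hMs : (1 : ℝ) ≤ (M : ℝ) ^ s := one_le_pow₀ hM1
  have hN0 : (0 : ℝ) < 8 * (M : ℝ) ^ (s + 1) := by positivity
  unfold arcSet at hk hk'
  rw [Finset.mem_filter] at hk hk'
  have h2 := hk.2
  have h2' := hk'.2
  push_cast at h2 h2'
  have hx0 : 0 ≤ xk k := Int.fract_nonneg _
  have hx0' : 0 ≤ xk k' := Int.fract_nonneg _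
  have f1 := Nat.floor_le (mul_nonneg hN0.le hx0)
  have f2 := Nat.lt_floor_add_one (8 * (M : ℝ) ^ (s + 1) * xk k)
  have f1' := Nat.floor_le (mul_nonneg hN0.le hx0')
  have f2' := Nat.lt_floor_add_one (8 * (M : ℝ) ^ (s + 1) * xk k')
  rw [h2] at f1 f2
  rw [h2'] at f1' f2'
  push_cast at f1 f2 f1' f2'
  have hb' : (b : ℝ) + 1 ≤ M := by exact_mod_cast hb
  have hab' : (a : ℝ) + 2 ≤ b := by exact_mod_cast hab
  have ha0 : (0 : ℝ) ≤ a := Nat.cast_nonneg _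
  unfold tt
  rw [prod_exp27, prod_exp27, phi27 hM, phi27 hM, Complex.exp_ofReal_mul_I_im, Complex.exp_ofReal_mul_I_im]
  have ex : ∀ x : ℝ, M * (8 * (M : ℝ) ^ s * x - j) = 8 * (M : ℝ) ^ (s + 1) * x - M * j := fun x => by
    rw [pow_succ]
    ring
  set u : ℝ := 8 * (M : ℝ) ^ s * xk k - j with hu
  set u' : ℝ := 8 * (M : ℝ) ^ s * xk k' - j with hu'
  have e1 : M * u = 8 * (M : ℝ) ^ (s + 1) * xk k - M * j := ex _
  have e2 : M * u' = 8 * (M : ℝ) ^ (s + 1) * xk k' - M * j := ex _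
  have g0 : 0 ≤ u := by
    by_contra hcon
    push Not at hcon
    nlinarith
  have g1 : u' ≤ 1 := by
    by_contra hcon
    push Not at hcon
    nlinarith
  have g2 : 1 ≤ M * (u' - u) := by
    rw [mul_sub, e1, e2]
    linarith
  have g3 : 0 ≤ u' - u := by
    by_contra hcon
    push Not at hcon
    nlinarith
  have hc : 0 < 2 * π / (8 * (M : ℝ) ^ s) := by positivity
  have hc1 : 2 * π / (8 * (M : ℝ) ^ s) ≤ π / 4 := by
    rw [div_le_iff₀ (by positivity)]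
    nlinarith [Real.pi_pos]
  set C : ℝ := 2 * π / (8 * (M : ℝ) ^ s) with hC
  have hCM : (M : ℝ) ^ s * C = π / 4 := by
    rw [hC]
    field_simp
    ring
  have hpi := Real.pi_pos
  have s1 : sin (C * u') - sin (C * u) = 2 * sin ((C * u' - C * u) / 2) * cos ((C * u' + C * u) / 2) := Real.sin_sub_sin _ _
  have w1 : C * u' ≤ π / 4 := by nlinarith
  have w0 : 0 ≤ C * u := mul_nonneg hc.le g0
  have w2 : C * u ≤ C * u' := by nlinarith
  have s2 : 1 / 2 ≤ cos ((C * u' + C * u) / 2) := cos27 (by linarith) (by linarith)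
  have s3 : 2 / π * ((C * u' - C * u) / 2) ≤ sin ((C * u' - C * u) / 2) := by
    apply Real.mul_le_sin
    · linarith
    · linarith
  have s4 : 0 ≤ 2 / π * ((C * u' - C * u) / 2) := by
    have : 0 ≤ (C * u' - C * u) / 2 := by linarith
    positivity
  have s5 : 2 * (2 / π * ((C * u' - C * u) / 2)) * (1 / 2) ≤ 2 * sin ((C * u' - C * u) / 2) * cos ((C * u' + C * u) / 2) :=
    mul_le_mul (by linarith) s2 (by norm_num) (by linarith)
  rw [← mul_sub, s1]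
  have s6 : (M : ℝ) ^ s * (2 * (2 / π * ((C * u' - C * u) / 2)) * (1 / 2)) = (u' - u) / 4 := by
    have : (M : ℝ) ^ s * (2 * (2 / π * ((C * u' - C * u) / 2)) * (1 / 2)) = ((M : ℝ) ^ s * C) * (u' - u) / π := by
      field_simp
    rw [this, hCM]
    field_simp
  calc 1 / (4 * (M : ℝ)) ≤ (u' - u) / 4 := by
        rw [div_le_div_iff₀ (by positivity) (by norm_num)]
        linarith
    _ = (M : ℝ) ^ s * (2 * (2 / π * ((C * u' - C * u) / 2)) * (1 / 2)) := s6.symm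
    _ ≤ _ := mul_le_mul_of_nonneg_left s5 (by linarith)

theorem tt_sep {J n M s j : ℕ} (hM : 1 ≤ M) {a : Fin J → Fin M} (ha : a ∈ gapT J M) {i i' : Fin J} (hi : i ≠ i') {k k' : ℤ × ℤ}
    (hk : k ∈ Ch n M s j a i) (hk' : k' ∈ Ch n M s j a i') : 1 / (4 * (M : ℝ)) ≤ |tt M s j k - tt M s j k'| := by
  unfold gapT at ha
  rw [Finset.mem_filter] at ha
  unfold Ch at hk hk'
  rcases ha.2 i i' hi with h | h
  · rw [abs_sub_comm]
    exact (sep27 hM (a i').2 h hk hk').trans (le_abs_self _)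
  · exact (sep27 hM (a i).2 h hk' hk).trans (le_abs_self _)

end Pool.Agent.Helper27.AO
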