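import Pool.Agent.Helper93.EX.Fin4

/-!
# AO (MP_fb29e9_nt), block P: prevalence for all `2 ≤ k ≤ ∞`

`V` is the space of the `2π`-periodic functions of class `C^k`, `k ≤ ∞`, given by `IsPerI`. The set of violations is the preimage of the Borel set of violations in the
space of the functions of class `C²`; the law of the random function has compact support.
-/

open MeasureTheory Real Set Filter Topology

set_option autoImplicit false

namespace Pool.Agent.Helper27.AO

open scoped ContDiff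
open Pool.Agent.Helper93.AO
open Pool.Agent.Helper93.EX
open Pool.Agent.Helper22.LP (Fr fdet)
open Pool.Agent.Helper88.EX (idf Es Es_one Es_neg Es_le meas_up meas_lo)

/-- the space of the `2π`-periodic functions of class `C^k`, `k ≤ ∞`, with the `C^k` topology -/
structure IsPerI (k : ℕ∞) {V : Type} [TopologicalSpace V] (val : V → ℝ → ℝ) : Prop where
  smooth : ∀ v, ContDiff ℝ k (val v)
  per : ∀ v, Function.Periodic (val v) (2 * π)
  inj : Function.Injective val
  surj : ∀ f : ℝ → ℝ, ContDiff ℝ k f → Function.Periodic f (2 * π) → ∃ v, val v = f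
  top : IsInducing fun v (j : {j : ℕ // (j : ℕ∞) ≤ k}) => UniformFun.ofFun (iteratedDeriv j (val v))

theorem two_le_coe {k : ℕ∞} (hk : 2 ≤ k) : (2 : WithTop ℕ∞) ≤ (k : WithTop ℕ∞) := by
  have h : ((2 : ℕ∞) : WithTop ℕ∞) ≤ (k : WithTop ℕ∞) := WithTop.coe_le_coe.2 hk
  exact h

/-- the two laws, for both signs -/
def LawP (H : ℝ → ℝ) : Prop := ∀ σ : ℝ, σ = 1 ∨ σ = -1 → Law σ H ∧ Law4 σ H

/-! ## The space for `k = 2` -/

/-- the `2π`-periodic functions of class `C²` -/
structure P2 where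
  val : ℝ → ℝ
  smooth : ContDiff ℝ 2 val
  periodic : Function.Periodic val (2 * π)

noncomputable instance : TopologicalSpace P2 :=
  TopologicalSpace.induced (fun v (j : Fin (2 + 1)) => UniformFun.ofFun (iteratedDeriv j v.val)) inferInstance

noncomputable instance : MeasurableSpace P2 := borel P2

instance : BorelSpace P2 := ⟨rfl⟩

theorem isPer2 : IsPer 2 P2.val := by
  refine ⟨fun v => by exact_mod_cast v.smooth, fun v => v.periodic, fun v w h => ?_, fun f h1 h2 => ⟨⟨f, by exact_mod_cast h1, h2⟩, rfl⟩, ⟨rfl⟩⟩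
  cases v
  cases w
  simp only [P2.mk.injEq]
  exact h

/-- the Borel set of the violations -/
def B2 : Set P2 := ((VU 1 P2.val ∪ VL 1 P2.val) ∪ (VU (-1) P2.val ∪ VL (-1) P2.val)) ∪
  ((VU4 1 P2.val ∪ VL4 1 P2.val) ∪ (VU4 (-1) P2.val ∪ VL4 (-1) P2.val))

theorem B2_meas : MeasurableSet B2 := by
  have hk1 : 0 < kap 1 := kap_pos (Or.inl rfl)
  have hk2 : 0 < kap (-1) := kap_pos (Or.inr rfl)
  unfold B2
  exact (((meas_up isPer2 le_rfl (Or.inl rfl) (kap 1)).union (meas_lo isPer2 le_rfl (Or.inl rfl) (kap 1))).union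
      ((meas_up isPer2 le_rfl (Or.inr rfl) (kap (-1))).union (meas_lo isPer2 le_rfl (Or.inr rfl) (kap (-1))))).union
      (((meas_up4 isPer2 le_rfl (Or.inl rfl) hk1).union (meas_lo4 isPer2 le_rfl (Or.inl rfl) hk1)).union
      ((meas_up4 isPer2 le_rfl (Or.inr rfl) hk2).union (meas_lo4 isPer2 le_rfl (Or.inr rfl) hk2)))

theorem law_of_B2 {H : P2} (h : H ∉ B2) (hH : ∀ t, 0 < H.val t + deriv (deriv H.val) t) : LawP H.val := by
  unfold B2 at h
  simp only [mem_union, not_or] at h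
  obtain ⟨⟨⟨b1, b2⟩, b3, b4⟩, ⟨b5, b6⟩, b7, b8⟩ := h
  rintro σ (rfl | rfl)
  · exact ⟨law_of hH b1 b2, law4_of hH b5 b6⟩
  · exact ⟨law_of hH b3 b4, law4_of hH b7 b8⟩

theorem not_B2_of_law {H : P2} (h : (∀ t, 0 < H.val t + deriv (deriv H.val) t) → LawP H.val) : H ∉ B2 := by
  have n1 := not_of_law (σ := 1) (H := H) (val := P2.val) fun hH => (h hH 1 (Or.inl rfl)).1
  have n2 := not_of_law (σ := -1) (H := H) (val := P2.val) fun hH => (h hH (-1) (Or.inr rfl)).1
  have n3 := not_of_law4 (σ := 1) (H := H) (val := P2.val) fun hH => (h hH 1 (Or.inl rfl)).2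
  have n4 := not_of_law4 (σ := -1) (H := H) (val := P2.val) fun hH => (h hH (-1) (Or.inr rfl)).2
  unfold B2
  simp only [mem_union, not_or]
  exact ⟨⟨⟨n1.1, n1.2⟩, n2.1, n2.2⟩, ⟨n3.1, n3.2⟩, n4.1, n4.2⟩

/-! ## Spaces with `2 ≤ k ≤ ∞` -/

section

variable {k : ℕ∞} {V : Type} [TopologicalSpace V] {val : V → ℝ → ℝ}

theorem contI (h : IsPerI k val) {j : ℕ} (hj : (j : ℕ∞) ≤ k) : Continuous fun f : V => UniformFun.ofFun (iteratedDeriv j (val f)) :=
  (continuous_apply (⟨j, hj⟩ : {j : ℕ // (j : ℕ∞) ≤ k})).comp h.top.continuous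

theorem t2I (h : IsPerI k val) : T2Space V := by
  refine T2Space.of_injective_continuous (f := fun f : V => UniformFun.ofFun (iteratedDeriv 0 (val f))) ?_ (contI h (by simp))
  intro f g hfg
  have h1 : iteratedDeriv 0 (val f) = iteratedDeriv 0 (val g) := hfg
  rw [iteratedDeriv_zero, iteratedDeriv_zero] at h1
  exact h.inj h1

/-- for finite `k` this is `IsPer` -/
theorem IsPerI.fin {m : ℕ} (h : IsPerI (m : ℕ∞) val) : IsPer m val := by
  refine ⟨fun v => by exact_mod_cast h.smooth v, h.per, h.inj, fun f h1 h2 => h.surj f (by exact_mod_cast h1) h2, ?_⟩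
  constructor
  rw [h.top.eq_induced]
  simp only [Pi.topologicalSpace, induced_iInf, induced_compose]
  refine le_antisymm ?_ ?_
  · refine le_iInf fun j => ?_
    exact iInf_le_of_le (⟨(j : ℕ), by exact_mod_cast (by omega : (j : ℕ) ≤ m)⟩ : {j : ℕ // (j : ℕ∞) ≤ (m : ℕ∞)}) le_rfl
  · refine le_iInf fun j => ?_
    exact iInf_le_of_le (⟨(j : ℕ), by have := j.2; have h2 : (j : ℕ) ≤ m := by exact_mod_cast this
                                      omega⟩ : Fin (m + 1)) le_rfl

/-- the restriction to the space of the functions of class `C²` -/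
def toP2 (h : IsPerI k val) (hk : 2 ≤ k) (v : V) : P2 := ⟨val v, (h.smooth v).of_le (two_le_coe hk), h.per v⟩

theorem toP2_cont (h : IsPerI k val) (hk : 2 ≤ k) : Continuous (toP2 h hk) := by
  rw [isPer2.top.continuous_iff, continuous_pi_iff]
  intro j
  have hj : ((j : ℕ) : ℕ∞) ≤ k := by
    refine le_trans ?_ hk
    have : (j : ℕ) ≤ 2 := by omega
    exact_mod_cast this
  exact contI h hj

/-- PREVALENCE, abstract form: `F z`, `z ∈ Z`, is a random smooth function with compact space of samples; for every `v` of class `C²` the measurable sets of samples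
for which `v + F z` violates the laws are null sets -/
theorem prev_abs {Z : Type} [TopologicalSpace Z] [CompactSpace Z] [MeasurableSpace Z] [OpensMeasurableSpace Z] (μ : Measure Z) [IsProbabilityMeasure μ]
    (F : Z → ℝ → ℝ) (hF : ∀ z, ContDiff ℝ ∞ (F z)) (hFp : ∀ z, Function.Periodic (F z) (2 * π))
    (hFc : ∀ j : ℕ, Continuous fun z => UniformFun.ofFun (iteratedDeriv j (F z)))
    (hlaw : ∀ v : ℝ → ℝ, ContDiff ℝ 2 v → Function.Periodic v (2 * π) → ∀ S : Set Z, MeasurableSet S →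
      (∀ z ∈ S, ¬ ((∀ t, 0 < (v t + F z t) + deriv (deriv (fun s => v s + F z s)) t) → LawP (fun s => v s + F z s))) → μ S = 0)
    [MeasurableSpace V] [BorelSpace V] (h : IsPerI k val) (hk : 2 ≤ k) :
    ∃ B : Set V, (∀ H : V, H ∉ B → (∀ t, 0 < val H t + deriv (deriv (val H)) t) → LawP (val H)) ∧
      MeasurableSet B ∧ ∃ μ' : Measure V, IsProbabilityMeasure μ' ∧ (∃ K : Set V, IsCompact K ∧ μ' Kᶜ = 0) ∧
        ∀ v : V, μ' {w | ∃ u ∈ B, ∀ t, val u t = val w t + val v t} = 0 := by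
  have ht2 : T2Space V := t2I h
  obtain ⟨B, hBdef⟩ : ∃ B : Set V, B = toP2 h hk ⁻¹' B2 := ⟨_, rfl⟩
  have hBm : MeasurableSet B := by
    rw [hBdef]
    exact (toP2_cont h hk).measurable B2_meas
  have hkt : ((k : ℕ∞) : WithTop ℕ∞) ≤ ∞ := by exact_mod_cast le_top
  -- the random function as an element of `V`
  have hW : ∀ z : Z, ∃ v : V, val v = F z := fun z => h.surj (F z) ((hF z).of_le hkt) (hFp z)
  choose RW hRW using hW
  have hRc : Continuous RW := by
    rw [h.top.continuous_iff, continuous_pi_iff]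
    intro j
    refine (hFc (j : ℕ)).congr fun z => ?_
    show _ = UniformFun.ofFun (iteratedDeriv j (val (RW z)))
    rw [hRW]
  -- the sum of two functions
  have hA : ∀ w v : V, ∃ u : V, val u = fun t => val w t + val v t := fun w v =>
    h.surj _ ((h.smooth w).add (h.smooth v)) fun t => congrArg₂ (· + ·) (h.per w t) (h.per v t)
  choose ad had using hA
  have hAc : ∀ v : V, Continuous fun w : V => ad w v := by
    intro v
    rw [h.top.continuous_iff, continuous_pi_iff]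
    intro j
    have h1 : Continuous fun w : V => UniformFun.ofFun (iteratedDeriv j (val w)) + UniformFun.ofFun (iteratedDeriv j (val v)) := (contI h j.2).add continuous_const
    refine h1.congr fun w => ?_
    show _ = UniformFun.ofFun (iteratedDeriv j (val (ad w v)))
    rw [← UniformFun.ofFun_add, had]
    congr 1
    funext t
    have hj2 : (((j : ℕ) : ℕ∞) : WithTop ℕ∞) ≤ ((k : ℕ∞) : WithTop ℕ∞) := by exact_mod_cast j.2
    have hj3 : ((j : ℕ) : WithTop ℕ∞) ≤ ((k : ℕ∞) : WithTop ℕ∞) := by exact_mod_cast hj2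
    exact (iteratedDeriv_fun_add ((h.smooth w).of_le hj3).contDiffAt ((h.smooth v).of_le hj3).contDiffAt).symm
  have hset : ∀ v : V, {w : V | ∃ u ∈ B, ∀ t, val u t = val w t + val v t} = {w | ad w v ∈ B} := by
    intro v
    ext w
    constructor
    · rintro ⟨u, hu, hh⟩
      have e : u = ad w v := h.inj (by rw [had]; exact funext hh)
      rw [e] at hu
      exact hu
    · intro hh
      exact ⟨_, hh, fun t => by rw [had]⟩
  refine ⟨B, ?_, hBm, Measure.map RW μ, Measure.isProbabilityMeasure_map hRc.measurable.aemeasurable, ?_, ?_⟩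
  · intro H hB hH
    rw [hBdef] at hB
    exact law_of_B2 (H := toP2 h hk H) hB hH
  · have hcp : IsCompact (range RW) := isCompact_range hRc
    refine ⟨range RW, hcp, ?_⟩
    rw [Measure.map_apply hRc.measurable hcp.isClosed.measurableSet.compl]
    have : RW ⁻¹' (range RW)ᶜ = ∅ := by
      ext z
      simp
    rw [this, measure_empty]
  · intro v
    rw [hset]
    have hm : MeasurableSet {w : V | ad w v ∈ B} := (hAc v).measurable hBm
    rw [Measure.map_apply hRc.measurable hm]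
    have hv2 : ContDiff ℝ 2 (val v) := (h.smooth v).of_le (two_le_coe hk)
    refine hlaw (val v) hv2 (h.per v) _ (hRc.measurable hm) fun z hcon hz => ?_
    have e : val (ad (RW z) v) = fun s => val v s + F z s := by
      rw [had, hRW]
      funext t
      ring
    have hcon' : ad (RW z) v ∈ B := hcon
    rw [hBdef] at hcon'
    refine not_B2_of_law (H := toP2 h hk (ad (RW z) v)) (fun hH => ?_) hcon'
    have hH' : ∀ t, 0 < val (ad (RW z) v) t + deriv (deriv (val (ad (RW z) v))) t := hH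
    show LawP (val (ad (RW z) v))
    rw [e] at hH' ⊢
    exact hz hH'

/-- the final form: outside a Borel set `B` part (1) holds for `k ≤ 5` and part (2) for all `k`; `B` is a shy set -/
def FinS (k : ℕ∞) (val : V → ℝ → ℝ) [MeasurableSpace V] : Prop :=
    ∃ B : Set V, (∀ H : V, H ∉ B → (∀ t, 0 < val H t + deriv (deriv (val H)) t) → (k ≤ 5 → ∀ K : Set Fr, IsCompact K → (∀ p ∈ K, fdet p ≠ 0) →
        ∃ C : ℝ, ∀ p ∈ K, ∀ R : ℝ, 2 ≤ R → ∀ c : ℝ × ℝ, |Er p (val H) c R| ≤ C * gR R) ∧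
        ∀ σ : ℝ, σ = 1 ∨ σ = -1 → ∀ t : ℝ, 0 < t → ∀ ε : ℝ, 0 < ε → ∃ X₀ : ℝ, ∀ X : ℝ, X₀ ≤ X → ∀ c : ℝ × ℝ,
          LVc (fun R => σ * Er idf (val H) c R) t X (2 * X) ≤ X ^ (1 - (t / (kap σ * aff (val H) ^ (3 / 4 : ℝ))) ^ 4 + ε) ∧
          (t < kap σ * aff (val H) ^ (3 / 4 : ℝ) → X ^ (1 - (t / (kap σ * aff (val H) ^ (3 / 4 : ℝ))) ^ 4 - ε) ≤ LVc (fun R => σ * Er idf (val H) c R) t X (2 * X)) ∧
          (kap σ * aff (val H) ^ (3 / 4 : ℝ) < t → ∀ R : ℝ, X ≤ R → σ * Er idf (val H) c R < t * gR R)) ∧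
      MeasurableSet B ∧ ∃ μ' : Measure V, IsProbabilityMeasure μ' ∧ (∃ K : Set V, IsCompact K ∧ μ' Kᶜ = 0) ∧
        ∀ v : V, μ' {w | ∃ u ∈ B, ∀ t, val u t = val w t + val v t} = 0

/-- the final form of the laws, `2 ≤ k ≤ ∞` -/
theorem prev_finI {Z : Type} [TopologicalSpace Z] [CompactSpace Z] [MeasurableSpace Z] [OpensMeasurableSpace Z] (μ : Measure Z) [IsProbabilityMeasure μ]
    (F : Z → ℝ → ℝ) (hF : ∀ z, ContDiff ℝ ∞ (F z)) (hFp : ∀ z, Function.Periodic (F z) (2 * π))
    (hFc : ∀ j : ℕ, Continuous fun z => UniformFun.ofFun (iteratedDeriv j (F z)))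
    (hlaw : ∀ v : ℝ → ℝ, ContDiff ℝ 2 v → Function.Periodic v (2 * π) → ∀ S : Set Z, MeasurableSet S →
      (∀ z ∈ S, ¬ ((∀ t, 0 < (v t + F z t) + deriv (deriv (fun s => v s + F z s)) t) → LawP (fun s => v s + F z s))) → μ S = 0)
    [MeasurableSpace V] [BorelSpace V] (h : IsPerI k val) (hk : 2 ≤ k) : FinS k val := by
  by_cases hk5 : k ≤ 5
  · obtain ⟨m, rfl⟩ : ∃ m : ℕ, k = m := ⟨k.toNat, (ENat.natCast_toNat (ne_top_of_le_ne_top (by exact ENat.natCast_ne_top 5) hk5)).symm⟩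
    obtain ⟨B, h1, h2, h3⟩ := prev_fin4 h.fin (by exact_mod_cast hk) (by exact_mod_cast hk5)
    exact ⟨B, fun H hB hH => ⟨fun _ => (h1 H hB hH).1, (h1 H hB hH).2⟩, h2, h3⟩
  · obtain ⟨B, h1, h2, h3⟩ := prev_abs μ F hF hFp hFc hlaw h hk
    refine ⟨B, fun H hB hH => ⟨fun h5 => absurd h5 hk5, fun σ hσ t ht ε hε => ?_⟩, h2, h3⟩
    have hO : IsOv (val H) := ⟨(h.smooth H).of_le (two_le_coe hk), h.per H, hH⟩
    obtain ⟨b1, b2⟩ := h1 H hB hH σ hσ
    exact fin_law hO hσ b1 b2 ht hε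

/-- the form with the laws almost surely -/
theorem prev_fin_ae {Z : Type} [TopologicalSpace Z] [CompactSpace Z] [MeasurableSpace Z] [OpensMeasurableSpace Z] (μ : Measure Z) [IsProbabilityMeasure μ]
    (F : Z → ℝ → ℝ) (hF : ∀ z, ContDiff ℝ ∞ (F z)) (hFp : ∀ z, Function.Periodic (F z) (2 * π))
    (hFc : ∀ j : ℕ, Continuous fun z => UniformFun.ofFun (iteratedDeriv j (F z)))
    (hlaw : ∀ v : ℝ → ℝ, ContDiff ℝ 2 v → Function.Periodic v (2 * π) →
      ∀ᵐ z ∂μ, (∀ t, 0 < (v t + F z t) + deriv (deriv (fun s => v s + F z s)) t) → LawP (fun s => v s + F z s))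
    [MeasurableSpace V] [BorelSpace V] (h : IsPerI k val) (hk : 2 ≤ k) : FinS k val :=
  prev_finI μ F hF hFp hFc (fun v h2 hp _ _ hS => measure_mono_null (fun z hz => hS z hz) (hlaw v h2 hp)) h hk

/-- the form for two independent samples: for almost every `x` and almost every `y` -/
theorem prev_fin_prod {X Y : Type} [TopologicalSpace X] [CompactSpace X] [MeasurableSpace X] [TopologicalSpace Y] [CompactSpace Y] [MeasurableSpace Y]
    [OpensMeasurableSpace (X × Y)] (P : Measure X) [IsProbabilityMeasure P] (Q : Measure Y) [IsProbabilityMeasure Q]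
    (F : X × Y → ℝ → ℝ) (hF : ∀ z, ContDiff ℝ ∞ (F z)) (hFp : ∀ z, Function.Periodic (F z) (2 * π))
    (hFc : ∀ j : ℕ, Continuous fun z => UniformFun.ofFun (iteratedDeriv j (F z)))
    (hlaw : ∀ v : ℝ → ℝ, ContDiff ℝ 2 v → Function.Periodic v (2 * π) →
      ∀ᵐ x ∂P, ∀ᵐ y ∂Q, (∀ t, 0 < (v t + F (x, y) t) + deriv (deriv (fun s => v s + F (x, y) s)) t) → LawP (fun s => v s + F (x, y) s))
    [MeasurableSpace V] [BorelSpace V] (h : IsPerI k val) (hk : 2 ≤ k) : FinS k val := by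
  refine prev_finI (P.prod Q) F hF hFp hFc (fun v h2 hp S hS hS' => ?_) h hk
  rw [Measure.measure_prod_null hS]
  filter_upwards [hlaw v h2 hp] with x hx
  exact measure_mono_null (fun y hy => hS' (x, y) hy) hx

end

end Pool.Agent.Helper27.AO
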