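import Pool.Agent.Helper98.MT.Grade

/-!
The rank profile of a homogeneous square zero operator, and crossing elements.
-/

open Module

namespace MTP

variable {K : Type*} [Field K] {V : Type*} [AddCommGroup V] [Module K V] [FiniteDimensional K V]
variable {ω : LinearMap.BilinForm K V} {L : Submodule K (Module.End K V)}
  {I : Type*} [Fintype I] [DecidableEq I]

omit [FiniteDimensional K V] in
/-- Homogeneity in terms of the commutator. -/
lemma hom_comm [CharZero K] (b : Basis I K V) {χ : I → ℚ} {h x : Module.End K V}
    (hh : ∀ i, h (b i) = (χ i : K) • b i) {c : ℚ}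
    (hx : ∀ i j, en b x i j ≠ 0 → χ i - χ j = c) : h * x - x * h = (c : K) • x := by
  apply en_ext b
  intro i j
  rw [en_comm b hh]
  have e : en b ((c : K) • x) i j = (c : K) * en b x i j := by simp [en]
  rw [e]
  by_cases h0 : en b x i j = 0
  · rw [h0, mul_zero, mul_zero]
  · rw [hx i j h0]

/-- **Rank profile** of a homogeneous square zero operator. -/
theorem profile [CharZero K] (b : Basis I K V) (χ : I → ℚ) {h x : Module.End K V}
    (hh : ∀ i, h (b i) = (χ i : K) • b i) {c : ℚ}
    (hx : ∀ i j, en b x i j ≠ 0 → χ i - χ j = c) (hxx : x * x = 0) :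
    ∃ r : ℚ → ℕ, (∀ a, r a + r (a - c) ≤ finrank K (Module.End.eigenspace h (a : K))) ∧
      rk x ≤ ∑ a ∈ Finset.univ.image χ, r a := by
  classical
  have hc := hom_comm b hh hx
  refine ⟨fun a => finrank K ((Module.End.eigenspace h (a : K)).map x), ?_, ?_⟩
  · intro a
    set E := Module.End.eigenspace h (a : K) with hE
    set E' := Module.End.eigenspace h (((a - c : ℚ)) : K) with hE'
    -- `x E' ≤ ker x ⊓ E`
    have h1 : E'.map x ≤ (LinearMap.ker (x.domRestrict E)).map E.subtype := by
      rintro _ ⟨v, hv, rfl⟩
      have hv' : h v = ((a - c : ℚ) : K) • v := Module.End.mem_eigenspace_iff.mp hv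
      have hxv : x v ∈ E := by
        rw [hE, Module.End.mem_eigenspace_iff]
        have := congrArg (fun f : Module.End K V => f v) hc
        simp only [LinearMap.sub_apply, Module.End.mul_apply, LinearMap.smul_apply] at this
        rw [hv', map_smul, sub_eq_iff_eq_add] at this
        rw [this]
        push_cast
        module
      refine ⟨⟨x v, hxv⟩, ?_, rfl⟩
      change x (x v) = 0
      rw [← Module.End.mul_apply, hxx]
      rfl
    have h2 : finrank K (E'.map x) ≤ finrank K (LinearMap.ker (x.domRestrict E)) := by
      calc _ ≤ finrank K ((LinearMap.ker (x.domRestrict E)).map E.subtype) :=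
            Submodule.finrank_mono h1
        _ = _ := LinearEquiv.finrank_eq
            (Submodule.equivMapOfInjective _ (Submodule.subtype_injective _) _).symm
    have h3 := LinearMap.finrank_range_add_finrank_ker (x.domRestrict E)
    have h4 : LinearMap.range (x.domRestrict E) = E.map x := LinearMap.range_domRestrict _ _
    rw [h4] at h3
    change finrank K (E.map x) + finrank K (E'.map x) ≤ _
    omega
  · have h1 : LinearMap.range x ≤
        (Finset.univ.image χ).sup fun a => (Module.End.eigenspace h (a : K)).map x := by
      rintro _ ⟨v, rfl⟩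
      rw [← b.sum_repr v, map_sum]
      apply Submodule.sum_mem
      intro j _
      rw [map_smul]
      apply Submodule.smul_mem
      have h2 : (Module.End.eigenspace h (χ j : K)).map x ≤
          (Finset.univ.image χ).sup fun a => (Module.End.eigenspace h (a : K)).map x :=
        Finset.le_sup (f := fun a : ℚ => (Module.End.eigenspace h (a : K)).map x)
          (Finset.mem_image_of_mem χ (Finset.mem_univ j))
      apply h2
      exact ⟨b j, Module.End.mem_eigenspace_iff.mpr (hh j), rfl⟩
    have h3 : ∀ T : Finset ℚ, finrank K
        ((T.sup fun a : ℚ => (Module.End.eigenspace h (a : K)).map x : Submodule K V)) ≤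
        ∑ a ∈ T, finrank K ((Module.End.eigenspace h (a : K)).map x) := by
      intro T
      induction T using Finset.induction_on with
      | empty => simp
      | insert a T ha ih =>
        rw [Finset.sup_insert, Finset.sum_insert ha]
        exact (Submodule.finrank_add_le_finrank_add_finrank _ _).trans (by omega)
    exact (Submodule.finrank_mono h1).trans (h3 _)

/-- **Crossing elements.** If the span of the basis vectors with `χ` in `A` is a proper nonzero
subspace, then some element of `L` leads out of it. -/
theorem exists_crossing (hL : IrrSymp ω L) (b : Basis I K V) (χ : I → ℚ) (A : Set ℚ)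
    (hA : ∃ i, χ i ∈ A) (hA' : ∃ i, χ i ∉ A) :
    ∃ z ∈ L, ∃ i j, en b z i j ≠ 0 ∧ χ j ∈ A ∧ χ i ∉ A := by
  by_contra hcon
  push Not at hcon
  let W : Submodule K V :=
    { carrier := {v | ∀ i, χ i ∉ A → b.repr v i = 0}
      add_mem' := by
        intro v w hv hw i hi
        rw [map_add, Finsupp.add_apply, hv i hi, hw i hi, add_zero]
      zero_mem' := by intro i _; simp
      smul_mem' := by
        intro c v hv i hi
        rw [map_smul, Finsupp.smul_apply, hv i hi, smul_zero] }
  obtain ⟨i₀, hi₀⟩ := hA
  obtain ⟨i₁, hi₁⟩ := hA'
  rcases hL.irr W (by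
    intro z hz w hw i hi
    rw [← b.sum_repr w, map_sum, map_sum, Finsupp.finsetSum_apply]
    apply Finset.sum_eq_zero
    intro j _
    rw [map_smul, map_smul, Finsupp.smul_apply, ← en_eq]
    by_cases hj : χ j ∈ A
    · by_cases he : en b z i j = 0
      · rw [he, smul_zero]
      · exact absurd hi (by
          have := hcon z hz i j he hj
          exact not_not.mpr this)
    · rw [hw j hj, zero_smul]) with h1 | h1
  · have : b i₀ ∈ W := by
      intro i hi
      rw [Basis.repr_self, Finsupp.single_apply, if_neg]
      rintro rfl
      exact hi hi₀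
    rw [h1, Submodule.mem_bot] at this
    exact b.ne_zero i₀ this
  · have : b i₁ ∈ W := by rw [h1]; trivial
    have := this i₁ hi₁
    rw [Basis.repr_self, Finsupp.single_eq_same] at this
    exact one_ne_zero this

end MTP
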