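import Pool.Agent.Helper98.MT.GNewton
import Pool.Agent.Helper21.MT.Sharp2

/-!
Sharpness of the Newton polygon criterion: in every dimension `4 b ≥ 8` there is an irreducible
pair that is not full and has an element whose slopes can be cut with matching number four.
-/

open Module MTPairs
open scoped Kronecker

namespace MTP

section roots
variable {K : Type*} [Field K] {m : Type*} [Fintype m] [DecidableEq m]

/-- Slope multiplicities of a diagonal matrix. -/
lemma smult_diagonal (v : K → ℚ) (γ : Matrix.GeneralLinearGroup m K) (f : m → K)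
    (h : (γ : Matrix m m K) = Matrix.diagonal f) (a : ℚ) :
    smult v γ a = (Finset.univ.filter fun i => v (f i) = a).card := by
  classical
  have h1 : (γ : Matrix m m K).charpoly.roots = Finset.univ.val.map f := by
    rw [h, Matrix.charpoly_diagonal]
    have : (∏ i, (Polynomial.X - Polynomial.C (f i))) =
        ((Finset.univ.val.map f).map fun a => Polynomial.X - Polynomial.C a).prod := by
      rw [Multiset.map_map]; rfl
    rw [this, Polynomial.roots_multiset_prod_X_sub_C]
  rw [smult, h1, Multiset.filter_map, Multiset.card_map]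
  rfl

end roots

section sharp
variable {K : Type*} [Field K] {b : ℕ}

/-- The entries of the diagonal element. -/
def ent (t : K) (x : Fin 2 × (Fin 2 × Fin b)) : K :=
  if (x.2.2 : ℕ) = 0 then (if x.2.1 = 0 then t else t⁻¹) else 1

/-- The diagonal element. -/
lemma exists_diag {t : K} (ht : t ≠ 0) : ∃ γ ∈ GenG (Gens K b),
    (γ : Matrix (Fin 2 × (Fin 2 × Fin b)) (Fin 2 × (Fin 2 × Fin b)) K) =
      Matrix.diagonal (ent t) := by
  let d : Fin b → Fin 2 := fun _ => 0
  let d' : Fin b → Fin 2 := fun k => if (k : ℕ) = 0 then 1 else 0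
  have hP1 : (1 : Matrix (Fin 2) (Fin 2) K) ⊗ₖ Dd K d ∈ Gens K b := Or.inr ⟨_, Dd_mem d, rfl⟩
  have hP2 : (1 : Matrix (Fin 2) (Fin 2) K) ⊗ₖ Dd K d' ∈ Gens K b := Or.inr ⟨_, Dd_mem d', rfl⟩
  obtain ⟨g1, hg1, hg1'⟩ := (GenG_cochar (Gens_idem _ hP1) hP1).2 t ht
  obtain ⟨g2, hg2, hg2'⟩ := (GenG_cochar (Gens_idem _ hP2) hP2).2 t⁻¹ (inv_ne_zero ht)
  refine ⟨g1 * g2, (GenG (Gens K b)).mul_mem hg1 hg2, ?_⟩
  have e : ∀ (s : K) (d : Fin b → Fin 2),
      s • ((1 : Matrix (Fin 2) (Fin 2) K) ⊗ₖ Dd K d) +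
        (1 - (1 : Matrix (Fin 2) (Fin 2) K) ⊗ₖ Dd K d) =
      Matrix.diagonal (fun x : Fin 2 × (Fin 2 × Fin b) => if x.2.1 = d x.2.2 then s else 1) := by
    intro s d
    have h1 : (1 : Matrix (Fin 2) (Fin 2) K) ⊗ₖ Dd K d = Matrix.diagonal
        (fun x : Fin 2 × (Fin 2 × Fin b) => if x.2.1 = d x.2.2 then (1 : K) else 0) := by
      ext ⟨i, x⟩ ⟨j, y⟩
      rw [Matrix.kroneckerMap_apply, Matrix.one_apply, Dd, Matrix.diagonal_apply,
        Matrix.diagonal_apply]
      by_cases h1 : i = j <;> by_cases h2 : x = y <;> simp [h1, h2]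
    rw [h1]
    ext x y
    rw [Matrix.add_apply, Matrix.smul_apply, Matrix.sub_apply, Matrix.diagonal_apply,
      Matrix.diagonal_apply, Matrix.one_apply]
    by_cases hxy : x = y
    · by_cases h2 : x.2.1 = d x.2.2
      · simp [hxy, hxy ▸ h2]
      · have h3 : ¬ y.2.1 = d y.2.2 := hxy ▸ h2
        simp [hxy, h3]
    · simp [hxy]
  rw [Units.val_mul, hg1', hg2', e, e, Matrix.diagonal_mul_diagonal]
  congr 1
  ext ⟨i, s, k⟩
  simp only [ent, d, d']
  by_cases hk : (k : ℕ) = 0
  · fin_cases s <;> simp [hk]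
  · fin_cases s <;> simp [hk, ht]

/-- The slopes of the diagonal element. -/
lemma card_ent {t : K} (ht : t ≠ 0) {v : K → ℚ}
    (hv : ∀ x y, x ≠ 0 → y ≠ 0 → v (x * y) = v x + v y) (hvt : v t ≠ 0) (hb : 2 ≤ b) (a : ℚ) :
    (Finset.univ.filter fun x : Fin 2 × (Fin 2 × Fin b) => v (ent t x) = a).card =
      (if a = 0 then 4 * (b - 1) else 0) + (if a = v t then 2 else 0) +
        (if a = - v t then 2 else 0) := by
  classical
  have h1 : v 1 = 0 := by
    have := hv 1 1 one_ne_zero one_ne_zero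
    rw [one_mul] at this
    linarith
  have h2 : v t⁻¹ = - v t := by
    have := hv t t⁻¹ ht (inv_ne_zero ht)
    rw [mul_inv_cancel₀ ht, h1] at this
    linarith
  obtain ⟨c, rfl⟩ : ∃ c, b = c + 1 := ⟨b - 1, by omega⟩
  have h3 : ∀ x : Fin 2 × (Fin 2 × Fin (c + 1)), v (ent t x) =
      if (x.2.2 : ℕ) = 0 then (if x.2.1 = 0 then v t else - v t) else 0 := by
    intro x
    unfold ent
    split_ifs
    · rfl
    · exact h2
    · exact h1
  simp only [h3]
  rw [Finset.card_filter, Fintype.sum_prod_type]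
  simp only [Fintype.sum_prod_type, Fin.sum_univ_succ, Fin.val_zero, Fin.val_succ]
  by_cases e1 : a = 0
  · subst e1
    have e2 : ¬ (0 : ℚ) = v t := fun h => hvt h.symm
    have e3 : ¬ (0 : ℚ) = - v t := fun h => hvt (by linarith)
    simp [hvt, e2]
    ring
  · have e0 : ¬ (0 : ℚ) = a := fun h => e1 h.symm
    by_cases e2 : a = v t
    · subst e2
      have e3 : ¬ v t = - v t := fun h => hvt (by linarith)
      have e4 : ¬ - v t = v t := fun h => hvt (by linarith)
      simp [e0, e1, e3, e4]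
    · by_cases e3 : a = - v t
      · subst e3
        have e4 : ¬ v t = - v t := fun h => hvt (by linarith)
        have e5 : ¬ - v t = v t := fun h => hvt (by linarith)
        simp [e0, e1, e4, e5]
      · have e4 : ¬ v t = a := fun h => e2 h.symm
        have e5 : ¬ - v t = a := fun h => e3 h.symm
        simp [e0, e1, e2, e3, e4, e5]

/-- **Sharpness**: for every nontrivial additive valuation and every dimension `4 b ≥ 8` there is
an irreducible pair which is not full and contains an element whose slopes can be cut in such a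
way that all matchings across the cut have size at most four. -/
theorem newton_sharp {t : K} (ht : t ≠ 0) {v : K → ℚ} [CharZero K]
    (hv : ∀ x y, x ≠ 0 → y ≠ 0 → v (x * y) = v x + v y) (hvt : v t ≠ 0) (hb : 2 ≤ b) :
    ∃ G : Subgroup (Matrix.GeneralLinearGroup (Fin 2 × (Fin 2 × Fin b)) K),
      IsMTPair (Jm K b) G ∧ Irr G ∧ (∃ γ ∈ G,
        smult v γ 0 ≠ 0 ∧ (∃ a, a ≠ 0 ∧ smult v γ a ≠ 0) ∧
        ∀ a', a' ≠ 0 → smult v γ a' ≠ 0 →
          ∀ r : ℚ → ℕ, (∀ c, r c + r (c - a') ≤ smult v γ c) → ∑ᶠ c, r c ≤ 4) ∧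
      ∃ g : Matrix.GeneralLinearGroup (Fin 2 × (Fin 2 × Fin b)) K,
        (g : Matrix _ _ K).transpose * Jm K b * (g : Matrix _ _ K) = (1 : K) • Jm K b ∧
          g ∉ G := by
  classical
  refine ⟨GenG (Gens K b), isMTPair_gen Jm_transpose Jm_det Gens_idem Gens_lag, ?_, ?_, ?_⟩
  · intro U hU
    apply Gens_irr hb
    intro π hπ v hv
    obtain ⟨g, hg, hgt⟩ := (GenG_cochar (Gens_idem π hπ) hπ).2 2 two_ne_zero
    have h1 := hU g hg v hv
    have h2 : (g : Matrix _ _ K).mulVec v = π.mulVec v + v := by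
      rw [hgt]
      have : (2 : K) • π + (1 - π) = π + 1 := by rw [two_smul]; abel
      rw [this, Matrix.add_mulVec, Matrix.one_mulVec]
    rw [h2] at h1
    have := U.sub_mem h1 hv
    rwa [add_sub_cancel_right] at this
  · obtain ⟨γ, hγ, hγd⟩ := exists_diag (K := K) (b := b) ht
    have hm : ∀ a, smult v γ a = (if a = 0 then 4 * (b - 1) else 0) +
        (if a = v t then 2 else 0) + (if a = - v t then 2 else 0) := by
      intro a
      rw [smult_diagonal v γ _ hγd, card_ent ht hv hvt hb]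
    have e2 : ¬ (0 : ℚ) = v t := fun h => hvt h.symm
    have e3 : ¬ (0 : ℚ) = - v t := fun h => hvt (by linarith)
    have e4 : ¬ v t = - v t := fun h => hvt (by linarith)
    have e5 : ¬ - v t = v t := fun h => hvt (by linarith)
    have e6 : ¬ - v t = 0 := fun h => hvt (by linarith)
    refine ⟨γ, hγ, ?_, ⟨v t, hvt, ?_⟩, ?_⟩
    · rw [hm, if_pos rfl]
      omega
    · rw [hm, if_pos rfl]
      omega
    · intro a' ha' h0 r hr
      have ha2 : a' = v t ∨ a' = - v t := by
        by_contra hcon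
        rw [not_or] at hcon
        rw [hm, if_neg ha', if_neg hcon.1, if_neg hcon.2] at h0
        exact h0 rfl
      have b1 : ∀ c, r c ≤ smult v γ c := fun c => (Nat.le_add_right _ _).trans (hr c)
      have b2 : ∀ c, r c ≤ smult v γ (c + a') := by
        intro c
        have := hr (c + a')
        rw [add_sub_cancel_right] at this
        exact (Nat.le_add_left _ _).trans this
      have s2 : smult v γ a' = 2 := by
        rw [hm, if_neg ha']
        rcases ha2 with rfl | rfl
        · rw [if_pos rfl, if_neg e4]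
        · rw [if_neg e5, if_pos rfl]
      have s3 : smult v γ (-a') = 2 := by
        rw [hm, if_neg (by intro h; apply ha'; linarith)]
        rcases ha2 with rfl | rfl
        · rw [if_neg e5, if_pos rfl]
        · rw [neg_neg, if_pos rfl, if_neg e4]
      have s4 : ∀ c, c ≠ 0 → c ≠ a' → c ≠ -a' → smult v γ c = 0 := by
        intro c c0 c1 c2
        rw [hm, if_neg c0]
        rcases ha2 with rfl | rfl
        · rw [if_neg c1, if_neg c2]
        · rw [neg_neg] at c2
          rw [if_neg c2, if_neg c1]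
      have hsupp : Function.support r ⊆ (({0, -a'} : Finset ℚ) : Set ℚ) := by
        intro c hc
        rw [Function.mem_support] at hc
        by_contra hcon
        rw [Finset.mem_coe, Finset.mem_insert, Finset.mem_singleton, not_or] at hcon
        have c1 := b1 c
        have c2 := b2 c
        by_cases hca : c = a'
        · subst hca
          rw [s4 (c + c) (by intro h; apply ha'; linarith) (by intro h; apply ha'; linarith)
            (by intro h; apply ha'; linarith)] at c2
          omega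
        · rw [s4 c hcon.1 hca hcon.2] at c1
          omega
      rw [finsum_eq_sum_of_support_subset _ hsupp,
        Finset.sum_pair (by intro h; apply ha'; linarith)]
      have c1 := b2 0
      have c2 := b1 (-a')
      rw [zero_add, s2] at c1
      rw [s3] at c2
      omega
  · obtain ⟨g, hg, hgd⟩ := exists_not_dec (K := K) (b := b) (by omega)
    exact ⟨g, hg, fun h => hgd (GenG_le (Dec_closed (by omega)) Gens_dec h)⟩

/-- **The bound three is optimal**, in all dimensions `4 b ≥ 8` and for every valuation. -/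
theorem newton_iff [IsAlgClosed K] [CharZero K] {v : K → ℚ}
    (hv : ∀ x y, x ≠ 0 → y ≠ 0 → v (x * y) = v x + v y) (hv' : ∃ t, t ≠ 0 ∧ v t ≠ 0)
    (D : Set ℕ) (hD : ∃ b, 2 ≤ b ∧ 4 * b ∈ D) (N : ℕ) :
    (∀ (m : Type) [Fintype m] [DecidableEq m] (J : Matrix m m K)
      (G : Subgroup (Matrix.GeneralLinearGroup m K)), Fintype.card m ∈ D → IsMTPair J G → Irr G →
      ∀ γ ∈ G, ∀ A : Set ℚ, (∃ a ∈ A, smult v γ a ≠ 0) → (∃ a, a ∉ A ∧ smult v γ a ≠ 0) →
      (∀ a a' : ℚ, a ∈ A → a' ∉ A → smult v γ a ≠ 0 → smult v γ a' ≠ 0 →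
        ∀ r : ℚ → ℕ, (∀ c, r c + r (c - (a' - a)) ≤ smult v γ c) → ∑ᶠ c, r c ≤ N) →
      ∀ g : Matrix.GeneralLinearGroup m K, (∃ c : K,
        (g : Matrix m m K).transpose * J * (g : Matrix m m K) = c • J) → g ∈ G) ↔ N ≤ 3 := by
  constructor
  · intro h
    by_contra hN
    obtain ⟨t, ht, hvt⟩ := hv'
    obtain ⟨b, hb, hbD⟩ := hD
    obtain ⟨G, h1, h2, ⟨γ, hγ, h3, ⟨a, ha, h4⟩, h5⟩, g, hg, hgG⟩ :=
      newton_sharp (b := b) ht hv hvt hb
    apply hgG
    refine h _ (Jm K b) G ?_ h1 h2 γ hγ {0} ⟨0, rfl, h3⟩ ⟨a, ha, h4⟩ ?_ g ⟨1, hg⟩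
    · have : Fintype.card (Fin 2 × (Fin 2 × Fin b)) = 4 * b := by
        rw [Fintype.card_prod, Fintype.card_prod, Fintype.card_fin, Fintype.card_fin]
        ring
      rw [this]; exact hbD
    · rintro a a' rfl ha' - h0' r hr
      rw [Set.mem_singleton_iff] at ha'
      have := h5 a' ha' h0' r (by simpa using hr)
      omega
  · intro hN m _ _ J G _ hG hirr γ hγ A hA hA' hcut
    exact newton_group hG hirr hγ hv A hA hA' fun a a' h1 h2 h3 h4 r hr =>
      (hcut a a' h1 h2 h3 h4 r hr).trans hN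

end sharp

end MTP
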